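import Pool.Agent.H44.CP.PTR

/-!
# Module PFN: the final reduction of THEOREM P

`PR d`: near a map of degree `d` with an attracting cycle and a critical point in the Julia set but not in the closure of the forward orbits of the critical points there are maps with more attracted critical points (this is (P1)). `p_nd`: then, outside a nowhere dense set, every critical point in the Julia set of a map with
an attracting cycle is in the limit set of a recurrent critical point. PROOF. As `rc_nd` (H44/ND/RND), with `to_rec` (PTR).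
-/

set_option autoImplicit false

open Filter Topology Polynomial Metric Set

namespace Pool.Agent.H44.CP

open Pool.Agent.H44.Fatou Pool.Agent.H32.BT Pool.Agent.H79.Eul Pool.Agent.H79.Par
open Pool.Agent.H35.EX Pool.Agent.H44.RR Pool.Agent.H56.HR Pool.Agent.H44.RC Pool.Agent.H47.RJ
open Pool.Agent.H47.NM Pool.Agent.H47.NN Pool.Agent.H44.ND

variable {d : ℕ} {v : E d}

/-- every critical point in the Julia set is in the limit set of a recurrent critical point -/
def ConcP (f : OnePoint ℂ → OnePoint ℂ) : Prop :=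
  (∀ c, IsCrit f c → c ∈ JS f → ∃ r, IsCrit f r ∧ r ∈ JS f ∧ r ∈ Om f r ∧ c ∈ Om f r) ∧
  (HypMap f ∨ ∃ r, IsCrit f r ∧ r ∈ JS f ∧ r ∈ Om f r)

/-- (P1) in degree `d` -/
def PR (d : ℕ) : Prop :=
  ∀ v : E d, IsCoprime (pol v.1) (pol v.2) → max (pol v.1).natDegree (pol v.2).natDegree = d →
    (∃ z n, IsSink (Rf v) z n) → ∀ c, IsCrit (Rf v) c → c ∈ JS (Rf v) → c ∉ PC (Rf v) → Up v

theorem om_conj' {f g : OnePoint ℂ → OnePoint ℂ} {φ : OnePoint ℂ ≃ₜ OnePoint ℂ}
    (hφ : ∀ x, g (φ x) = φ (f x)) {x y : OnePoint ℂ} : φ y ∈ Om g (φ x) ↔ y ∈ Om f x := by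
  constructor
  · intro h U hU
    have h1 : φ.symm ⁻¹' U ∈ 𝓝 (φ y) := by
      refine φ.symm.continuous.continuousAt.preimage_mem_nhds ?_
      rwa [Homeomorph.symm_apply_apply]
    refine (h _ h1).mono fun n hn => ?_
    rw [iter_conj φ hφ, mem_preimage, Homeomorph.symm_apply_apply] at hn
    exact hn
  · intro h U hU
    have h1 : φ ⁻¹' U ∈ 𝓝 y := φ.continuous.continuousAt.preimage_mem_nhds hU
    refine (h _ h1).mono fun n hn => ?_
    rw [iter_conj φ hφ]
    exact hn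

theorem concp_conj {f g : OnePoint ℂ → OnePoint ℂ} {φ : OnePoint ℂ ≃ₜ OnePoint ℂ} {K : ℝ}
    (hK : ∀ x y, chord (φ x) (φ y) ≤ K * chord x y ∧ chord x y ≤ K * chord (φ x) (φ y))
    (hφ : ∀ x, g (φ x) = φ (f x)) (h : ConcP g) : ConcP f := by
  have hJ : ∀ x, φ x ∈ JS g ↔ x ∈ JS f := fun x => not_congr (Pool.Agent.H76.SU.fs_conj hK hφ x)
  obtain ⟨h1, h2⟩ := h
  refine ⟨fun c hc hcJ => ?_, ?_⟩
  · obtain ⟨r, h3, h4, h5, h6⟩ := h1 (φ c) ((isCrit_conj φ hφ c).2 hc) ((hJ c).2 hcJ)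
    obtain ⟨r, rfl⟩ := φ.surjective r
    exact ⟨r, (isCrit_conj φ hφ r).1 h3, (hJ r).1 h4, (om_conj' hφ).1 h5, (om_conj' hφ).1 h6⟩
  · rcases h2 with h2 | ⟨r, h3, h4, h5⟩
    · left
      intro c hc
      exact (att_conj φ hφ c).1 (h2 _ ((isCrit_conj φ hφ c).2 hc))
    · right
      obtain ⟨r, rfl⟩ := φ.surjective r
      exact ⟨r, (isCrit_conj φ hφ r).1 h3, (hJ r).1 h4, (om_conj' hφ).1 h5⟩

theorem p_gen (hd : 2 ≤ d) (hPR : PR d) {w : E d} (h : Gen d (pol w.1) (pol w.2))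
    (hi : ∀ p : ℕ, 0 < p → (Rf w)^[p] OnePoint.infty ≠ OnePoint.infty)
    (hs : ∃ z n, IsSink (Rf w) z n) : ConcP (Rf w) ∨ Up w := by
  have hdeg : max (pol w.1).natDegree (pol w.2).natDegree = d := by rw [h.ha, h.hb, max_self]
  by_cases hup : Up w
  · exact Or.inr hup
  · left
    have hAR := ar_gen hd h hi hup
    refine ⟨fun c hc hcJ => to_rec hd h.cop hdeg hAR (fun c hc hcJ => ?_) hc hcJ, ?_⟩
    · by_contra hP
      exact hup (hPR w h.cop hdeg hs c hc hcJ hP)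
    · rcases gen_case hd h hi with h1 | h1
      · exact h1.2
      · exact absurd h1 hup

theorem p_nd (hd : 2 ≤ d) (hPR : PR d) :
    IsNowhereDense {v : E d | IsCoprime (pol v.1) (pol v.2) ∧
      max (pol v.1).natDegree (pol v.2).natDegree = d ∧ (∃ z n, IsSink (Rf v) z n) ∧
        ¬ ConcP (Rf v)} := by
  refine (up_nwd hd).mono ?_
  rintro v ⟨hcop, hdeg, ⟨z, n, hs⟩, hn⟩
  refine ⟨hcop, hdeg, ?_⟩
  obtain ⟨L, G, φ, K, _, hG, hGL, hLG, hconj, hK, hGen, hinf⟩ := gen_ch hd hcop hdeg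
  have hφ := (hconj v hcop hdeg).2.2
  rcases p_gen hd hPR hGen hinf ⟨φ z, n, (isSink_conj φ hφ z n).2 hs⟩ with h1 | h1
  · exact absurd (concp_conj hK hφ h1) hn
  · exact up_chart hd hG hGL hLG (fun v h2 h3 => (hconj v h2 h3).2.2) hcop hdeg h1

end Pool.Agent.H44.CP
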