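import Pool.Agent.H44.ND.RND

/-!
# Module MNT: neutral cycles in arbitrary charts; cycles which are not attracted

PROOFS. `big_na`: as `neu_na` (H44/ND/SNK), which only uses `1 ≤ ‖m‖`. `neu_up`: pass to the generic chart `gen_ch`. If there is a neutral cycle in the chart then `up_neu`. Otherwise every cycle in the chart is a sink or repelling (`ar_of_nneu`); the image of the given cycle is not a sink (`neu_na`), so it is repelling (`Rep`): the points
`y_n = φ⁻¹ (g^n (φ y))` converge to the cycle exponentially and `F y_(n+1) = y_n`, but `F` expands the distance to the neutral point by a factor at most `1 + η`: contradiction.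
-/

set_option autoImplicit false

open Filter Topology Polynomial Metric Set

namespace Pool.Agent.H44.CP

open Pool.Agent.H44.Fatou Pool.Agent.H32.BT Pool.Agent.H79.Eul Pool.Agent.H79.Par
open Pool.Agent.H35.EX Pool.Agent.H44.RR Pool.Agent.H79.ES Pool.Agent.H47.NN Pool.Agent.H44.ND
open Pool.Agent.H47.RJ

variable {d : ℕ} {v : E d}

theorem cyc_orb {p : ℕ} {x : ℕ → ℂ} {m : ℂ} (hc : Cyc (pol v.1) (pol v.2) p x m) :
    Orb v x p := by
  intro j hj
  refine ⟨?_, ?_⟩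
  · rw [← pol_eval]
    exact hc.ne j hj
  · rw [← pol_eval, ← pol_eval]
    exact hc.step j hj

theorem cyc_it {p : ℕ} {x : ℕ → ℂ} {m : ℂ} (hc : Cyc (pol v.1) (pol v.2) p x m) :
    ∀ i, i ≤ p → (Rf v)^[i] (x 0 : OnePoint ℂ) = (x i : OnePoint ℂ) := by
  intro i
  induction i with
  | zero => intro _; rfl
  | succ i ih =>
    intro hi
    rw [Function.iterate_succ_apply', ih (by omega)]
    unfold Rf
    rw [rat_coe_of_ne (hc.ne i (by omega)), hc.step i (by omega)]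

/-- a cycle with multiplier of modulus at least one is not attracted -/
theorem big_na (hd : 2 ≤ d) (hcop : IsCoprime (pol v.1) (pol v.2))
    (hdeg : max (pol v.1).natDegree (pol v.2).natDegree = d) {p : ℕ} (hp : 0 < p) {x : ℕ → ℂ} {m : ℂ}
    (hc : Cyc (pol v.1) (pol v.2) p x m) (hm : 1 ≤ ‖m‖) : ¬ Att (Rf v) (x 0 : OnePoint ℂ) := by
  rintro ⟨a, n, hs, ht⟩
  have hfix := cyc_rf hc
  have hn := hs.1
  -- `a = x 0`
  have hfixk : ∀ k, (Rf v)^[p * k] (x 0 : OnePoint ℂ) = (x 0 : OnePoint ℂ) := by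
    intro k
    rw [Function.iterate_mul]
    exact Function.iterate_fixed hfix k
  have ha : a = (x 0 : OnePoint ℂ) := by
    have h1 : Tendsto (fun k : ℕ => (Rf v)^[n * (p * k)] (x 0 : OnePoint ℂ)) atTop (𝓝 a) :=
      ht.comp (tendsto_id.const_mul_atTop' hp)
    have h2 : (fun k : ℕ => (Rf v)^[n * (p * k)] (x 0 : OnePoint ℂ)) =
        fun _ => (x 0 : OnePoint ℂ) := by
      funext k
      have h3 : n * (p * k) = p * (n * k) := by ring
      rw [h3, hfixk]
    rw [h2] at h1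
    exact tendsto_nhds_unique h1 tendsto_const_nhds
  subst ha
  have hs2 : IsSink (Rf v) (x 0 : OnePoint ℂ) (n * p) := isSink_mul hs hp
  -- the orbit is finite
  have hmod : ∀ j, (Rf v)^[j] (x 0 : OnePoint ℂ) = (x (j % p) : OnePoint ℂ) := by
    intro j
    have h1 : j = j % p + p * (j / p) := (Nat.mod_add_div j p).symm
    conv_lhs => rw [h1, Function.iterate_add_apply, hfixk]
    exact cyc_it hc (j % p) (Nat.mod_lt j hp).le
  have hfin : ∀ j, (rat (pol v.1) (pol v.2))^[j] (x 0 : OnePoint ℂ) ≠ OnePoint.infty := by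
    intro j h
    have h1 := hmod j
    unfold Rf at h1
    rw [h1] at h
    exact OnePoint.coe_ne_infty _ h
  obtain ⟨y, -, hy, -, -, -, hlt⟩ := sink_mult_fin hcop (by omega) hs2 hfin
  have hyx : ∀ j, y j = x (j % p) := by
    intro j
    have h1 := hy j
    have h2 := hmod j
    unfold Rf at h2
    rw [h1] at h2
    exact OnePoint.coe_eq_coe.1 h2
  have hprod : ∀ k, ∏ j ∈ Finset.range (p * k),
      (Wr (pol v.1) (pol v.2)).eval (y j) / ((pol v.2).eval (y j)) ^ 2 = m ^ k := by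
    intro k
    induction k with
    | zero => simp
    | succ k ih =>
      rw [Nat.mul_succ, Finset.prod_range_add, ih, pow_succ]
      congr 1
      rw [← hc.mul]
      refine Finset.prod_congr rfl fun i hi => ?_
      rw [hyx, Nat.mul_add_mod, Nat.mod_eq_of_lt (Finset.mem_range.1 hi)]
  rw [Nat.mul_comm n p, hprod, norm_pow] at hlt
  exact (one_le_pow₀ hm).not_gt hlt

/-- all points of the cycle -/
theorem big_na_all (hd : 2 ≤ d) (hcop : IsCoprime (pol v.1) (pol v.2))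
    (hdeg : max (pol v.1).natDegree (pol v.2).natDegree = d) {p : ℕ} (hp : 0 < p) {x : ℕ → ℂ} {m : ℂ}
    (hc : Cyc (pol v.1) (pol v.2) p x m) (hm : 1 ≤ ‖m‖) {i : ℕ} (hi : i ≤ p) :
    ¬ Att (Rf v) (x i : OnePoint ℂ) := by
  intro h
  rw [← cyc_it hc i hi] at h
  exact big_na hd hcop hdeg hp hc hm ((att_iter (rat_continuous hcop) _ i).1 h)

/-- the metric argument -/
theorem no_rep {f g : OnePoint ℂ → OnePoint ℂ} {φ : OnePoint ℂ ≃ₜ OnePoint ℂ} {K : ℝ}
    (hφ : ∀ x, g (φ x) = φ (f x))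
    (hK : ∀ x y, chord (φ x) (φ y) ≤ K * chord x y ∧ chord x y ≤ K * chord (φ x) (φ y))
    {x0 : ℂ} {F : ℂ → ℂ}
    (hF : ∀ᶠ z : ℂ in 𝓝 x0, f (z : OnePoint ℂ) = ((F z : ℂ) : OnePoint ℂ))
    (hFl : ∀ η : ℝ, 0 < η → ∀ᶠ z : ℂ in 𝓝 x0, ‖F z - x0‖ ≤ (1 + η) * ‖z - x0‖)
    {ρ κ : ℝ} {γ : OnePoint ℂ → OnePoint ℂ} (hR : Rep g (φ (x0 : OnePoint ℂ)) ρ κ γ) : False := by
  obtain ⟨K', hK'⟩ : ∃ K', K' = max K 1 := ⟨_, rfl⟩
  have hK1 : 1 ≤ K' := by rw [hK']; exact le_max_right _ _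
  have hKK : ∀ x y, chord (φ x) (φ y) ≤ K' * chord x y ∧ chord x y ≤ K' * chord (φ x) (φ y) := by
    intro x y
    have h1 := hK x y
    have h2 : K ≤ K' := by rw [hK']; exact le_max_left _ _
    exact ⟨h1.1.trans (mul_le_mul_of_nonneg_right h2 (chord_nn _ _)),
      h1.2.trans (mul_le_mul_of_nonneg_right h2 (chord_nn _ _))⟩
  -- choice of `η`
  obtain ⟨η, hη, hη1⟩ : ∃ η : ℝ, 0 < η ∧ (1 + η) * κ < 1 := by
    have h1 := hR.hκ
    have h2 := hR.hκ1
    refine ⟨(1 - κ) / 2, by linarith, ?_⟩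
    nlinarith [mul_nonneg h1 (by linarith : (0:ℝ) ≤ 1 - κ)]
  -- the neighbourhood
  obtain ⟨r0, hr0, h0⟩ := Metric.eventually_nhds_iff_ball.1 (hF.and (hFl η hη))
  obtain ⟨r, hr⟩ : ∃ r, r = min r0 1 := ⟨_, rfl⟩
  have hrp : 0 < r := by rw [hr]; exact lt_min hr0 one_pos
  have hr1 : r ≤ 1 := by rw [hr]; exact min_le_right _ _
  have hrr : r ≤ r0 := by rw [hr]; exact min_le_left _ _
  -- comparison of the metrics
  obtain ⟨C, hC⟩ : ∃ C : ℝ, C = √(1 + ‖x0‖ ^ 2) * √(1 + (‖x0‖ + 1) ^ 2) := ⟨_, rfl⟩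
  have hs1 : ∀ u : ℝ, 0 ≤ u → 1 ≤ √(1 + u ^ 2) := fun u _ => by
    rw [Real.one_le_sqrt]
    nlinarith [sq_nonneg u]
  have hC1 : 1 ≤ C := by
    rw [hC]
    exact one_le_mul_of_one_le_of_one_le (hs1 _ (norm_nonneg _)) (hs1 _ (by positivity))
  have hcmp : ∀ z : ℂ, ‖z - x0‖ ≤ 1 → ‖z - x0‖ ≤ C * chord (x0 : OnePoint ℂ) (z : OnePoint ℂ) := by
    intro z hz
    show ‖z - x0‖ ≤ C * (‖x0 - z‖ / (√(1 + ‖x0‖ ^ 2) * √(1 + ‖z‖ ^ 2)))
    have h1 : ‖z‖ ≤ ‖x0‖ + 1 := by
      have h2 := norm_add_le (z - x0) x0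
      rw [sub_add_cancel] at h2
      linarith
    have h2 : √(1 + ‖x0‖ ^ 2) * √(1 + ‖z‖ ^ 2) ≤ C := by
      rw [hC]
      refine mul_le_mul_of_nonneg_left ?_ (Real.sqrt_nonneg _)
      apply Real.sqrt_le_sqrt
      have := pow_le_pow_left₀ (norm_nonneg z) h1 2
      linarith
    have h3 : 0 < √(1 + ‖x0‖ ^ 2) * √(1 + ‖z‖ ^ 2) :=
      mul_pos (zero_lt_one.trans_le (hs1 _ (norm_nonneg _))) (zero_lt_one.trans_le (hs1 _ (norm_nonneg _)))
    rw [norm_sub_rev x0 z, ← mul_div_assoc, le_div_iff₀ h3, mul_comm]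
    exact mul_le_mul_of_nonneg_right h2 (norm_nonneg _)
  have hle : ∀ z w : ℂ, chord (z : OnePoint ℂ) (w : OnePoint ℂ) ≤ ‖z - w‖ := by
    intro z w
    show ‖z - w‖ / (√(1 + ‖z‖ ^ 2) * √(1 + ‖w‖ ^ 2)) ≤ ‖z - w‖
    exact div_le_self (norm_nonneg _)
      (one_le_mul_of_one_le_of_one_le (hs1 _ (norm_nonneg _)) (hs1 _ (norm_nonneg _)))
  -- chordally small implies small
  obtain ⟨τ, hτ, hsm⟩ : ∃ τ : ℝ, 0 < τ ∧ ∀ x : OnePoint ℂ, chord (x0 : OnePoint ℂ) x < τ →
      ∃ z : ℂ, (z : OnePoint ℂ) = x ∧ ‖z - x0‖ < r := by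
    have hop : IsOpen ((fun w : ℂ => (w : OnePoint ℂ)) '' ball x0 r) :=
      OnePoint.isOpenEmbedding_coe.isOpenMap _ isOpen_ball
    have hcl : IsCompact ((fun w : ℂ => (w : OnePoint ℂ)) '' ball x0 r)ᶜ := hop.isClosed_compl.isCompact
    have hcc : Continuous fun y : OnePoint ℂ => chord (x0 : OnePoint ℂ) y :=
      chord_cont.comp (continuous_const.prodMk continuous_id)
    rcases Set.eq_empty_or_nonempty ((fun w : ℂ => (w : OnePoint ℂ)) '' ball x0 r)ᶜ with hE | hE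
    · refine ⟨1, one_pos, fun x _ => ?_⟩
      by_contra hx
      have : x ∈ ((fun w : ℂ => (w : OnePoint ℂ)) '' ball x0 r)ᶜ := by
        rintro ⟨z, hz, hzx⟩
        exact hx ⟨z, hzx, mem_ball_iff_norm.1 hz⟩
      rw [hE] at this
      exact this
    · obtain ⟨y0, hy0, hmin⟩ := hcl.exists_isMinOn hE hcc.continuousOn
      refine ⟨chord (x0 : OnePoint ℂ) y0, ?_, fun x hx => ?_⟩
      · apply chord_pos
        intro h
        exact hy0 ⟨x0, mem_ball_self hrp, h⟩
      · by_contra hx'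
        have h1 : x ∈ ((fun w : ℂ => (w : OnePoint ℂ)) '' ball x0 r)ᶜ := by
          rintro ⟨z, hz, hzx⟩
          exact hx' ⟨z, hzx, mem_ball_iff_norm.1 hz⟩
        exact (isMinOn_iff.1 hmin x h1).not_gt hx
  -- a point near `x0`
  obtain ⟨y, hyx, hyn, hyτ⟩ : ∃ y : ℂ, y ≠ x0 ∧ ‖y - x0‖ < r ∧
      K' * K' * ‖y - x0‖ < min τ ρ := by
    obtain ⟨s, hs⟩ : ∃ s : ℝ, s = min (r / 2) (min τ ρ / (2 * (K' * K'))) := ⟨_, rfl⟩
    have hmp : 0 < min τ ρ := lt_min hτ hR.hρ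
    have hKp : 0 < K' * K' := by positivity
    have hs0 : 0 < s := by rw [hs]; positivity
    have hyy : ‖(x0 + (s : ℂ)) - x0‖ = s := by
      rw [add_sub_cancel_left, Complex.norm_real, Real.norm_eq_abs, abs_of_pos hs0]
    refine ⟨x0 + (s : ℂ), ?_, ?_, ?_⟩
    · intro h
      rw [h, sub_self, norm_zero] at hyy
      linarith
    · rw [hyy]
      have : s ≤ r / 2 := by rw [hs]; exact min_le_left _ _
      linarith
    · rw [hyy]
      have h1 : s ≤ min τ ρ / (2 * (K' * K')) := by rw [hs]; exact min_le_right _ _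
      have h2 : K' * K' * s ≤ K' * K' * (min τ ρ / (2 * (K' * K'))) :=
        mul_le_mul_of_nonneg_left h1 hKp.le
      have h3 : K' * K' * (min τ ρ / (2 * (K' * K'))) = min τ ρ / 2 := by
        field_simp
      rw [h3] at h2
      linarith
  obtain ⟨a, ha⟩ : ∃ a, a = φ (x0 : OnePoint ℂ) := ⟨_, rfl⟩
  rw [← ha] at hR
  obtain ⟨D, hD⟩ : ∃ D, D = chord a (φ (y : OnePoint ℂ)) := ⟨_, rfl⟩
  have hD0 : 0 ≤ D := by rw [hD]; exact chord_nn _ _
  have hDy : D ≤ K' * ‖y - x0‖ := by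
    rw [hD, ha]
    refine (hKK _ _).1.trans (mul_le_mul_of_nonneg_left ?_ (by linarith))
    rw [norm_sub_rev]
    exact hle x0 y
  have hKD : K' * D < min τ ρ := by
    calc K' * D ≤ K' * (K' * ‖y - x0‖) := mul_le_mul_of_nonneg_left hDy (by linarith)
      _ = K' * K' * ‖y - x0‖ := by ring
      _ < min τ ρ := hyτ
  have hDρ : D < ρ := by
    have h1 : D ≤ K' * D := le_mul_of_one_le_left hD0 hK1
    exact (h1.trans_lt hKD).trans_le (min_le_right _ _)
  -- the iterates of the branch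
  have hit : ∀ n : ℕ, chord a (γ^[n] (φ (y : OnePoint ℂ))) ≤ κ ^ n * D := by
    intro n
    induction n with
    | zero =>
      rw [pow_zero, one_mul, hD]
      rfl
    | succ n ih =>
      have h1 : κ ^ n ≤ 1 := pow_le_one₀ hR.hκ hR.hκ1.le
      have h2 : κ ^ n * D ≤ D := mul_le_of_le_one_left hD0 h1
      rw [Function.iterate_succ_apply']
      refine (hR.contr _ ((ih.trans h2).trans_lt hDρ)).trans ?_
      calc κ * chord a (γ^[n] (φ (y : OnePoint ℂ))) ≤ κ * (κ ^ n * D) :=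
            mul_le_mul_of_nonneg_left ih hR.hκ
        _ = κ ^ (n + 1) * D := by ring
  have hit2 : ∀ n : ℕ, chord a (γ^[n] (φ (y : OnePoint ℂ))) ≤ D := fun n =>
    (hit n).trans (mul_le_of_le_one_left hD0 (pow_le_one₀ hR.hκ hR.hκ1.le))
  -- the points in the chart
  have hz : ∀ n : ℕ, ∃ z : ℂ, (z : OnePoint ℂ) = φ.symm (γ^[n] (φ (y : OnePoint ℂ))) ∧ ‖z - x0‖ < r ∧
      ‖z - x0‖ ≤ C * (K' * (κ ^ n * D)) := by
    intro n
    have h1 : chord (x0 : OnePoint ℂ) (φ.symm (γ^[n] (φ (y : OnePoint ℂ)))) ≤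
        K' * chord a (γ^[n] (φ (y : OnePoint ℂ))) := by
      have h2 := (hKK (x0 : OnePoint ℂ) (φ.symm (γ^[n] (φ (y : OnePoint ℂ))))).2
      rwa [Homeomorph.apply_symm_apply, ← ha] at h2
    have h3 : chord (x0 : OnePoint ℂ) (φ.symm (γ^[n] (φ (y : OnePoint ℂ)))) < τ :=
      (h1.trans (mul_le_mul_of_nonneg_left (hit2 n) (by linarith))).trans_lt
        (hKD.trans_le (min_le_left _ _))
    obtain ⟨z, hz1, hz2⟩ := hsm _ h3
    refine ⟨z, hz1, hz2, ?_⟩
    refine (hcmp z (hz2.le.trans hr1)).trans ?_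
    rw [hz1]
    exact mul_le_mul_of_nonneg_left
      (h1.trans (mul_le_mul_of_nonneg_left (hit n) (by linarith))) (by linarith)
  choose z hz1 hz2 hz3 using hz
  have hz0 : z 0 = y := by
    have h1 := hz1 0
    rw [Function.iterate_zero, id_eq, Homeomorph.symm_apply_apply] at h1
    exact OnePoint.coe_injective h1
  have hstep : ∀ n, F (z (n + 1)) = z n := by
    intro n
    have h1 := (h0 (z (n + 1)) (mem_ball_iff_norm.2 ((hz2 (n + 1)).trans_le hrr))).1
    rw [hz1 (n + 1)] at h1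
    have h2 : f (φ.symm (γ^[n + 1] (φ (y : OnePoint ℂ)))) = φ.symm (γ^[n] (φ (y : OnePoint ℂ))) := by
      apply φ.injective
      rw [← hφ, Homeomorph.apply_symm_apply, Homeomorph.apply_symm_apply,
        Function.iterate_succ_apply']
      exact hR.right _ ((hit2 n).trans_lt hDρ)
    rw [h2, ← hz1 n] at h1
    exact (OnePoint.coe_injective h1).symm
  have hup : ∀ n, ‖y - x0‖ ≤ (1 + η) ^ n * ‖z n - x0‖ := by
    intro n
    induction n with
    | zero => rw [pow_zero, one_mul, hz0]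
    | succ n ih =>
      have h1 := (h0 (z (n + 1)) (mem_ball_iff_norm.2 ((hz2 (n + 1)).trans_le hrr))).2
      rw [hstep] at h1
      refine ih.trans ?_
      calc (1 + η) ^ n * ‖z n - x0‖ ≤ (1 + η) ^ n * ((1 + η) * ‖z (n + 1) - x0‖) :=
            mul_le_mul_of_nonneg_left h1 (by positivity)
        _ = (1 + η) ^ (n + 1) * ‖z (n + 1) - x0‖ := by ring
  have hlim : Tendsto (fun n : ℕ => C * K' * D * ((1 + η) * κ) ^ n) atTop (𝓝 0) := by
    have h1 := (tendsto_pow_atTop_nhds_zero_of_lt_one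
      (mul_nonneg (by linarith) hR.hκ) hη1).const_mul (C * K' * D)
    rwa [mul_zero] at h1
  have hfin : ‖y - x0‖ ≤ 0 := by
    refine ge_of_tendsto' hlim fun n => (hup n).trans ?_
    calc (1 + η) ^ n * ‖z n - x0‖ ≤ (1 + η) ^ n * (C * (K' * (κ ^ n * D))) :=
          mul_le_mul_of_nonneg_left (hz3 n) (by positivity)
      _ = C * K' * D * ((1 + η) * κ) ^ n := by rw [mul_pow]; ring
  exact hyx (sub_eq_zero.1 (norm_eq_zero.1 (le_antisymm hfin (norm_nonneg _))))

/-- a map with a neutral cycle in the plane -/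
theorem neu_up (hd : 2 ≤ d) (hcop : IsCoprime (pol v.1) (pol v.2))
    (hdeg : max (pol v.1).natDegree (pol v.2).natDegree = d) {p : ℕ} (hp : 0 < p) {x : ℕ → ℂ} {m : ℂ}
    (hc : Cyc (pol v.1) (pol v.2) p x m) (hm : ‖m‖ = 1) : Up v := by
  obtain ⟨L, G, φ, K, _, hG, hGL, hLG, hconj, hK, hGen, hinf⟩ := gen_ch hd hcop hdeg
  obtain ⟨hcop1, hdeg1, hφ⟩ := hconj v hcop hdeg
  have hnat := big_na hd hcop hdeg hp hc hm.ge
  by_cases hN : NNeu (L v)
  · exfalso
    have hAR := ar_of_nneu (by omega) hcop1 hdeg1 hN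
    have hfix : (Rf (L v))^[p] (φ (x 0 : OnePoint ℂ)) = φ (x 0 : OnePoint ℂ) := by
      rw [iter_conj φ hφ, cyc_rf hc]
    rcases hAR p hp _ hfix with ⟨h1, -⟩ | ⟨ρ, κ, γ, hR⟩
    · exact hnat (att_sink ((isSink_conj φ hφ _ p).1 h1))
    · have ho := cyc_orb hc
      have hnear : ∀ᶠ z : ℂ in 𝓝 (x 0), ∀ j < p, ev v.2 (it v j z) ≠ 0 := by
        have h1 : Tendsto (fun z : ℂ => ((v, z) : E d × ℂ)) (𝓝 (x 0)) (𝓝 (v, x 0)) :=
          (Continuous.prodMk continuous_const continuous_id).tendsto (x 0)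
        exact h1.eventually (orb_near ho)
      have hGv : ∀ᶠ z : ℂ in 𝓝 (x 0), (Rf v)^[p] (z : OnePoint ℂ) = ((it v p z : ℂ) : OnePoint ℂ) := by
        filter_upwards [hnear] with z hz
        exact rat_it hz
      have hmul : trD v p (x 0) = m := by
        rw [← hc.mul]
        unfold trD
        refine Finset.prod_congr rfl fun i hi => ?_
        rw [orb_it ho i (Finset.mem_range.1 hi).le, pol_eval]
        congr 1
        have h1 := wv_cf (pol_deg v.1) (pol_deg v.2) (x i)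
        rw [cf_pol, cf_pol] at h1
        exact h1
      have hder : HasDerivAt (fun z => it v p z) m (x 0) := by
        have h1 := tr_hasDerivAt v (x 0) p hnear.self_of_nhds
        rwa [hmul] at h1
      have hfx : it v p (x 0) = x 0 := by
        rw [orb_it ho p le_rfl]
        exact hc.per
      refine no_rep (f := (Rf v)^[p]) (g := (Rf (L v))^[p]) (φ := φ) (K := K)
        (fun y => iter_conj φ hφ p y) hK hGv ?_ hR
      intro η hη
      have h1 := (hasDerivAt_iff_isLittleO.1 hder).def hη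
      filter_upwards [h1] with z hz
      rw [hfx] at hz
      have h2 : it v p z - x 0 = (it v p z - x 0 - (z - x 0) • m) + (z - x 0) • m := by ring
      rw [h2]
      refine (norm_add_le _ _).trans ?_
      rw [norm_smul, hm, mul_one]
      linarith
  · have h1 : ∃ p : ℕ, 0 < p ∧ ∃ x m, Cyc (pol (L v).1) (pol (L v).2) p x m ∧ ‖m‖ = 1 := by
      by_contra hno
      apply hN
      refine ⟨hinf, fun p hp x m hc hm => hno ⟨p, hp, x, m, hc, hm⟩⟩
    obtain ⟨p', hp', x', m', hc', hm'⟩ := h1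
    have h2 := up_neu hd hGen hp' hc' hm'
    exact up_chart hd hG hGL hLG (fun v h3 h4 => (hconj v h3 h4).2.2) hcop hdeg h2

end Pool.Agent.H44.CP
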