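import Pool.Agent.H44.CP.MKC
import Pool.Agent.H44.CP.MNT

/-!
# Module MVL: bounded velocities of the repelling cycles

PROOFS. `vel_line`: along `F` of `ks_sel` the functions `t ↦ wi i (v0 + t w, F t)` are holomorphic on the disc and bounded by `R`: Cauchy; differentiate `wi (i + 1) = P / Q (wi i)`. `vel`: `¬ Up v0` gives a ball of maps with `¬ Up` (the number `NA` is constant there, `na_low`), so without neutral cycles (`neu_up`); a neighbourhood of infinity is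
attracted for all these maps (`att_pers`), so the cycles with multiplier of modulus at least one are in a fixed disc (`big_na_all`).
-/

set_option autoImplicit false

open Filter Topology Polynomial Metric Set

namespace Pool.Agent.H44.CP

open Pool.Agent.H44.Fatou Pool.Agent.H32.BT Pool.Agent.H79.Eul Pool.Agent.H79.Par
open Pool.Agent.H79.ES Pool.Agent.H47.NN Pool.Agent.H44.ND Pool.Agent.H44.NP

variable {d : ℕ}

private theorem mvl_ev {P : ℂ → Fin (d + 1) → ℂ} {P' : Fin (d + 1) → ℂ} {u : ℂ → ℂ} {u' : ℂ}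
    (hP : HasDerivAt P P' 0) (hu : HasDerivAt u u' 0) :
    HasDerivAt (fun t => ev (P t) (u t)) (ev P' (u 0) + dev (P 0) (u 0) * u') 0 := by
  have h1 : ev P' (u 0) + dev (P 0) (u 0) * u' = ∑ i : Fin (d + 1),
      (P' i * u 0 ^ (i : ℕ) + P 0 i * (((i : ℕ) : ℂ) * u 0 ^ ((i : ℕ) - 1) * u')) := by
    unfold ev dev
    rw [Finset.sum_add_distrib, Finset.sum_mul]
    congr 1
    refine Finset.sum_congr rfl fun i _ => ?_
    ring
  rw [h1]
  unfold ev
  apply HasDerivAt.fun_sum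
  intro i _
  exact (hasDerivAt_pi.1 hP i).mul (hu.pow (i : ℕ))

/-- the velocities along a line of maps -/
theorem vel_line {v0 w : E d} {p : ℕ} {r R : ℝ} (hr : 0 < r)
    (hcop : ∀ t : ℂ, ‖t‖ ≤ r → IsCoprime (pol (v0 + t • w).1) (pol (v0 + t • w).2))
    (hne : ∀ t : ℂ, ‖t‖ ≤ r → ∀ x m, Cyc (pol (v0 + t • w).1) (pol (v0 + t • w).2) p x m → ‖m‖ ≠ 1)
    (hR : ∀ t : ℂ, ‖t‖ ≤ r → ∀ x m, Cyc (pol (v0 + t • w).1) (pol (v0 + t • w).2) p x m →
      1 ≤ ‖m‖ → ∀ i, i ≤ p → ‖x i‖ ≤ R)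
    {x : ℕ → ℂ} {m : ℂ} (hc : Cyc (pol v0.1) (pol v0.2) p x m) (hm : 1 < ‖m‖) :
    ∃ u : ℕ → ℂ, (∀ i, i ≤ p → ‖u i‖ ≤ 2 * R / r) ∧ u p = u 0 ∧
      ∀ i, i < p → u (i + 1) = wv v0 (x i) / ev v0.2 (x i) ^ 2 * u i + xi v0 w (x i) := by
  have e0 : v0 + (0 : ℂ) • w = v0 := by rw [zero_smul, add_zero]
  have hwx : ∀ j, j ≤ p → wi j (v0, x 0) = x j := by
    intro j
    induction j with
    | zero => intro _; rfl
    | succ j ih =>
      intro hj
      have h1 := ih (by omega)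
      have h2 := hc.step j (by omega)
      show (pol v0.1).eval (wi j (v0, x 0)) / (pol v0.2).eval (wi j (v0, x 0)) = x (j + 1)
      rw [h1, h2]
  obtain ⟨g1, g2, g3⟩ := cyc_wi hc
  have hz : ((0 : ℂ), x 0) ∈ KS v0 w p r R := by
    refine ⟨?_, ?_, ?_, ?_, ?_⟩
    · rw [norm_zero]; exact hr.le
    · show (v0 + (0 : ℂ) • w, x 0) ∈ (Gp p : Set (E d × ℂ))
      rw [e0]; exact g1
    · show wi p (v0 + (0 : ℂ) • w, x 0) = x 0
      rw [e0]; exact g2
    · show 1 ≤ ‖mu p (v0 + (0 : ℂ) • w, x 0)‖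
      rw [e0, g3]; exact hm.le
    · intro i hi
      show ‖wi i (v0 + (0 : ℂ) • w, x 0)‖ ≤ R
      rw [e0, hwx i hi]
      have h1 := hR 0 (by rw [norm_zero]; exact hr.le) x m (by rw [e0]; exact hc) hm.le i hi
      exact h1
  obtain ⟨F, hF, hF0, hFK⟩ := ks_sel hr hcop hne hR hz
  obtain ⟨W, hW⟩ : ∃ W : ℕ → ℂ → ℂ, W = fun i t => wi i (v0 + t • w, F t) := ⟨_, rfl⟩
  have hWd : ∀ i, i ≤ p → DifferentiableOn ℂ (W i) (ball 0 r) := by
    intro i hi t ht
    have hK := hFK t ht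
    have hG : (v0 + t • w, F t) ∈ (Gp i : Set (E d × ℂ)) := fun j hj => hK.2.1 j (by omega)
    have h1 := (wi_an i hG).differentiableAt
    have h2 : DifferentiableAt ℂ (fun t : ℂ => ((v0 + t • w, F t) : E d × ℂ)) t :=
      ((differentiableAt_const _).add (differentiableAt_id.smul_const w)).prodMk
        (hF.differentiableAt (isOpen_ball.mem_nhds ht))
    rw [hW]
    exact (DifferentiableAt.comp t h1 h2).differentiableWithinAt
  have hWb : ∀ i, i ≤ p → ∀ t ∈ ball (0 : ℂ) r, ‖W i t‖ ≤ R := by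
    intro i hi t ht
    rw [hW]
    exact (hFK t ht).2.2.2.2 i hi
  have h0r : (0 : ℂ) ∈ ball (0 : ℂ) r := mem_ball_self hr
  have hW0 : ∀ i, i ≤ p → W i 0 = x i := by
    intro i hi
    rw [hW]
    show wi i (v0 + (0 : ℂ) • w, F 0) = x i
    rw [e0, hF0, hwx i hi]
  refine ⟨fun i => deriv (W i) 0, ?_, ?_, ?_⟩
  · intro i hi
    have hr2 : 0 < r / 2 := by positivity
    have h1 : DiffContOnCl ℂ (W i) (ball 0 (r / 2)) := by
      refine DifferentiableOn.diffContOnCl ?_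
      rw [closure_ball _ hr2.ne']
      exact (hWd i hi).mono (closedBall_subset_ball (by linarith))
    have h2 := Complex.norm_deriv_le_of_forall_mem_sphere_norm_le hr2 h1
      (fun z hz => hWb i hi z ((sphere_subset_closedBall.trans
        (closedBall_subset_ball (by linarith))) hz))
    refine h2.trans (le_of_eq ?_)
    field_simp
  · apply Filter.EventuallyEq.deriv_eq
    filter_upwards [isOpen_ball.mem_nhds h0r] with t ht
    rw [hW]
    exact (hFK t ht).2.2.1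
  · intro i hi
    have h1 : HasDerivAt (W i) (deriv (W i) 0) 0 :=
      ((hWd i hi.le).differentiableAt (isOpen_ball.mem_nhds h0r)).hasDerivAt
    have hv : HasDerivAt (fun t : ℂ => v0 + t • w) w 0 := by
      have h2 := ((hasDerivAt_id (0 : ℂ)).smul_const w).const_add v0
      rwa [one_smul] at h2
    have h3 := mvl_ev hv.fst h1
    have h4 := mvl_ev hv.snd h1
    have hQ : ev (v0 + (0 : ℂ) • w).2 (W i 0) ≠ 0 := by
      rw [e0, hW0 i hi.le, ← pol_eval]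
      exact hc.ne i hi
    have h5 := h3.div h4 hQ
    have h6 : (fun t => ev (v0 + t • w).1 (W i t) / ev (v0 + t • w).2 (W i t)) = W (i + 1) := by
      funext t
      rw [hW]
      show _ = (pol (v0 + t • w).1).eval (wi i (v0 + t • w, F t)) /
        (pol (v0 + t • w).2).eval (wi i (v0 + t • w, F t))
      rw [pol_eval, pol_eval]
    have h7 := h5.congr_of_eventuallyEq (f₁ := W (i + 1))
      (Filter.Eventually.of_forall fun t => (congrFun h6 t).symm)
    show deriv (W (i + 1)) 0 = wv v0 (x i) / ev v0.2 (x i) ^ 2 * deriv (W i) 0 + xi v0 w (x i)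
    rw [h7.deriv, e0, hW0 i hi.le]
    have hQ' : ev v0.2 (x i) ≠ 0 := by
      rw [← pol_eval]
      exact hc.ne i hi
    unfold wv xi
    field_simp
    ring

/-- bounded velocities -/
theorem vel (hd : 2 ≤ d) {v0 : E d} (hcop : IsCoprime (pol v0.1) (pol v0.2))
    (hdeg : max (pol v0.1).natDegree (pol v0.2).natDegree = d) (hup : ¬ Up v0)
    (hinf : Att (Rf v0) OnePoint.infty) :
    ∃ (R : ℝ), 0 < R ∧ (∀ (p : ℕ) (x : ℕ → ℂ) (m : ℂ), 0 < p → Cyc (pol v0.1) (pol v0.2) p x m →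
        1 < ‖m‖ → ∀ i, i ≤ p → ‖x i‖ ≤ R) ∧
      ∀ w : E d, ∃ C : ℝ, 0 < C ∧ ∀ (p : ℕ) (x : ℕ → ℂ) (m : ℂ), 0 < p →
        Cyc (pol v0.1) (pol v0.2) p x m → 1 < ‖m‖ →
        ∃ u : ℕ → ℂ, (∀ i, i ≤ p → ‖u i‖ ≤ C) ∧ u p = u 0 ∧
          ∀ i, i < p → u (i + 1) = wv v0 (x i) / ev v0.2 (x i) ^ 2 * u i + xi v0 w (x i) := by
  -- a ball without neutral cycles
  obtain ⟨ε0, hε0, hno⟩ : ∃ ε : ℝ, 0 < ε ∧ ∀ w ∈ ball v0 ε, IsCoprime (pol w.1) (pol w.2) →
      max (pol w.1).natDegree (pol w.2).natDegree = d → NA w ≤ NA v0 := by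
    unfold Up at hup
    push Not at hup
    obtain ⟨ε, hε, h⟩ := hup
    exact ⟨ε, hε, fun w hw h1 h2 => Nat.lt_succ_iff.1 (h w hw h1 h2)⟩
  obtain ⟨W, hW, hWv⟩ := att_pers hd hcop hdeg hinf
  have hev : ∀ᶠ v in 𝓝 v0, (∀ z ∈ W, Att (Rf v) z) ∧ (IsCoprime (pol v.1) (pol v.2) ∧
      max (pol v.1).natDegree (pol v.2).natDegree = d) ∧ NA v0 ≤ NA v :=
    hWv.and ((cop_near hcop hdeg (by omega)).and (na_low hd hcop hdeg))
  obtain ⟨ε1, hε1, hall⟩ := Metric.eventually_nhds_iff_ball.1 hev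
  obtain ⟨ε, hεd⟩ : ∃ ε, ε = min ε0 ε1 := ⟨_, rfl⟩
  have hε : 0 < ε := by rw [hεd]; exact lt_min hε0 hε1
  have hno' : ∀ v ∈ ball v0 ε, ¬ Up v := by
    intro v hv hu
    rw [hεd] at hv
    have hv1 := hall v (ball_subset_ball (min_le_right _ _) hv)
    obtain ⟨δ, hδ, hδb⟩ := Metric.isOpen_iff.1 isOpen_ball v (ball_subset_ball (min_le_left _ _) hv)
    obtain ⟨w, hw, h1, h2, h3⟩ := hu δ hδ
    have h4 := hno w (hδb hw) h1 h2
    have h5 := hv1.2.2
    omega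
  have hvn : ∀ v ∈ ball v0 ε, ∀ p : ℕ, 0 < p → ∀ x m, Cyc (pol v.1) (pol v.2) p x m → ‖m‖ ≠ 1 := by
    intro v hv p hp x m hc hm
    have hv1 := hall v (ball_subset_ball (by rw [hεd]; exact min_le_right _ _) hv)
    exact hno' v hv (neu_up hd hv1.2.1.1 hv1.2.1.2 hp hc hm)
  -- the bound
  obtain ⟨R, hRp, hRW⟩ : ∃ R : ℝ, 0 < R ∧ ∀ z : ℂ, R < ‖z‖ → (z : OnePoint ℂ) ∈ W := by
    have h1 : Tendsto (fun z : ℂ => (z : OnePoint ℂ)) (Filter.cocompact ℂ) (𝓝 OnePoint.infty) := by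
      rw [← Filter.coclosedCompact_eq_cocompact]
      exact OnePoint.tendsto_coe_infty
    have h2 : ∀ᶠ z : ℂ in Filter.cocompact ℂ, (z : OnePoint ℂ) ∈ W := h1.eventually hW
    rw [← Metric.cobounded_eq_cocompact,
      (Metric.hasBasis_cobounded_compl_closedBall (0 : ℂ)).eventually_iff] at h2
    obtain ⟨R0, -, hR0⟩ := h2
    refine ⟨max R0 1, lt_of_lt_of_le one_pos (le_max_right _ _), fun z hz => hR0 ?_⟩
    intro h3
    exact (mem_closedBall_zero_iff.1 h3).not_gt ((le_max_left _ _).trans_lt hz)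
  have hbd : ∀ v ∈ ball v0 ε, ∀ p : ℕ, 0 < p → ∀ x m, Cyc (pol v.1) (pol v.2) p x m → 1 ≤ ‖m‖ →
      ∀ i, i ≤ p → ‖x i‖ ≤ R := by
    intro v hv p hp x m hc hm i hi
    have hv1 := hall v (ball_subset_ball (by rw [hεd]; exact min_le_right _ _) hv)
    by_contra hlt
    exact big_na_all hd hv1.2.1.1 hv1.2.1.2 hp hc hm hi (hv1.1 _ (hRW _ (not_le.1 hlt)))
  refine ⟨R, hRp, fun p x m hp hc hm => hbd v0 (mem_ball_self hε) p hp x m hc hm.le, fun w => ?_⟩
  obtain ⟨r, hrd⟩ : ∃ r, r = ε / (2 * (‖w‖ + 1)) := ⟨_, rfl⟩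
  have hw0 : 0 < ‖w‖ + 1 := by positivity
  have hr : 0 < r := by rw [hrd]; positivity
  have hvb : ∀ t : ℂ, ‖t‖ ≤ r → v0 + t • w ∈ ball v0 ε := by
    intro t ht
    rw [mem_ball_iff_norm, add_sub_cancel_left, norm_smul]
    rw [hrd, le_div_iff₀ (by positivity)] at ht
    have h1 := norm_nonneg t
    have h2 := norm_nonneg w
    nlinarith
  refine ⟨2 * R / r, by positivity, fun p x m hp hc hm => ?_⟩
  exact vel_line hr
    (fun t ht => (hall _ (ball_subset_ball (by rw [hεd]; exact min_le_right _ _) (hvb t ht))).2.1.1)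
    (fun t ht x m hc => hvn _ (hvb t ht) p hp x m hc)
    (fun t ht x m hc hm => hbd _ (hvb t ht) p hp x m hc hm) hc hm

end Pool.Agent.H44.CP
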