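import Pool.Agent.H44.CP.PFN
import Pool.Agent.H84.BR.Trp
import Pool.Agent.H56.RD.AFS

/-!
# Module PCH: (P1) in a chart with infinity in a trap

`PD v c ρ R0`: planar data for the contradiction. `pr_of_pd`: (P1) follows if `PD` is impossible. PROOF. A trap `A` around the sink (`trap_of_sink`); a finite point `s` in the interior of `A` goes to infinity. `c` is not in `A` (points of the Julia set are not attracted, `na_js`) and not in `PC`, so a disc about `c` is disjoint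
from `A` and from `PC`. The orbits which end in the disc are outside `A`, so in a fixed disc of the plane, and they do not contain critical points at positive distance from the end.
-/

set_option autoImplicit false

open Filter Topology Polynomial Metric Set

namespace Pool.Agent.H44.CP

open Pool.Agent.H44.Fatou Pool.Agent.H32.BT Pool.Agent.H79.Eul Pool.Agent.H79.Par
open Pool.Agent.H35.EX Pool.Agent.H44.RR Pool.Agent.H56.HR Pool.Agent.H44.RC Pool.Agent.H47.RJ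
open Pool.Agent.H47.NM Pool.Agent.H47.NN Pool.Agent.H44.ND Pool.Agent.H79.ES Pool.Agent.H44.RG

variable {d : ℕ} {v : E d}

/-- planar data -/
structure PD {d : ℕ} (v : E d) (c : ℂ) (ρ R0 : ℝ) : Prop where
  hd : 2 ≤ d
  cop : IsCoprime (pol v.1) (pol v.2)
  deg : max (pol v.1).natDegree (pol v.2).natDegree = d
  nup : ¬ Up v
  inf : Att (Rf v) OnePoint.infty
  crit : IsCrit (Rf v) (c : OnePoint ℂ)
  js : (c : OnePoint ℂ) ∈ JS (Rf v)
  hρ : 0 < ρ
  fin : ∀ (n : ℕ) (u : OnePoint ℂ), (Rf v)^[n] u ∈ (fun w : ℂ => (w : OnePoint ℂ)) '' ball c ρ →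
    ∃ w ∈ ball (0 : ℂ) R0, (w : OnePoint ℂ) = u
  nc : ∀ (n : ℕ) (u : OnePoint ℂ), (Rf v)^[n] u ∈ (fun w : ℂ => (w : OnePoint ℂ)) '' ball c ρ →
    ∀ i < n, ¬ IsCrit (Rf v) ((Rf v)^[i] u)

theorem na_js (hd : 2 ≤ d) (hcop : IsCoprime (pol v.1) (pol v.2))
    (hdeg : max (pol v.1).natDegree (pol v.2).natDegree = d) (hup : ¬ Up v) {x : OnePoint ℂ}
    (hx : x ∈ JS (Rf v)) : ¬ Att (Rf v) x := by
  intro hatt
  obtain ⟨L, G, φ, K, _, hG, hGL, hLG, hconj, hK, hGen, hinf⟩ := gen_ch hd hcop hdeg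
  obtain ⟨hcop1, hdeg1, hφ⟩ := hconj v hcop hdeg
  have hN : NNeu (L v) := by
    refine ⟨hinf, fun p hp y m hc hm => hup ?_⟩
    exact up_chart hd hG hGL hLG (fun v h3 h4 => (hconj v h3 h4).2.2) hcop hdeg
      (neu_up hd hcop1 hdeg1 hp hc hm)
  have h1 := Pool.Agent.H56.RD.att_fs' (by omega) hcop1 hdeg1 hN ((att_conj φ hφ x).2 hatt)
  exact hx ((Pool.Agent.H76.SU.fs_conj hK hφ x).1 h1)

theorem pr_of_pd (hd : 2 ≤ d) (H : ∀ (v : E d) (c : ℂ) (ρ R0 : ℝ), PD v c ρ R0 → False) : PR d := by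
  intro v hcop hdeg hsink c hc hcJ hcP
  by_contra hup
  obtain ⟨z, n, hs⟩ := hsink
  have hna := na_js hd hcop hdeg hup hcJ
  obtain ⟨A, hA, hzA⟩ := Pool.Agent.H84.BR.trap_of_sink hcop (by rw [hdeg]; omega) hs
  obtain ⟨s, hsA⟩ : ∃ s : ℂ, (s : OnePoint ℂ) ∈ interior A :=
    OnePoint.denseRange_coe.exists_mem_open isOpen_interior ⟨z, hzA⟩
  obtain ⟨φ, hφ1, hφs, hφi, hφ⟩ := exists_mob s
  have hall : ∀ v : E d, IsCoprime (pol v.1) (pol v.2) →
      max (pol v.1).natDegree (pol v.2).natDegree = d →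
      IsCoprime (pol (Lin s v).1) (pol (Lin s v).2) ∧
      max (pol (Lin s v).1).natDegree (pol (Lin s v).2).natDegree = d ∧
      ∀ x, Rf (Lin s v) (φ x) = φ (Rf v x) := by
    intro v hc he
    obtain ⟨h1, h2, h3⟩ := hφ d _ _ hc he (by omega)
    unfold Rf
    rw [chartNull_pol1, chartNull_pol2]
    exact ⟨h1, h2, h3⟩
  obtain ⟨K, -, hK⟩ := chord_bilip hφs hφ1 hφi
  obtain ⟨G, hG, -, hGL, hLG⟩ := lin_inv s d
  obtain ⟨hcop1, hdeg1, hconj⟩ := hall v hcop hdeg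
  have hcs : c ≠ (s : OnePoint ℂ) := by
    intro h
    apply hna
    rw [h]
    exact hA.att _ (interior_subset hsA)
  obtain ⟨c1, hc1⟩ : ∃ c1 : ℂ, (c1 : OnePoint ℂ) = φ c := by
    apply OnePoint.ne_infty_iff_exists.1
    intro h
    rw [← hφs] at h
    exact hcs (φ.injective h)
  -- the disc
  obtain ⟨O, hO⟩ : ∃ O : Set (OnePoint ℂ), O = (φ '' (A ∪ PC (Rf v)))ᶜ := ⟨_, rfl⟩
  have hOo : IsOpen O := by
    rw [hO]
    refine (φ.isClosed_image.2 (hA.closed.union ?_)).isOpen_compl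
    unfold PC
    exact isClosed_closure
  have hcO : (c1 : OnePoint ℂ) ∈ O := by
    rw [hO, hc1]
    rintro ⟨y, hy, hyc⟩
    rw [φ.injective hyc] at hy
    rcases hy with hy | hy
    · exact hna (hA.att _ hy)
    · exact hcP hy
  obtain ⟨ρ, hρ, hρO⟩ : ∃ ρ : ℝ, 0 < ρ ∧ ∀ w ∈ ball c1 ρ, (w : OnePoint ℂ) ∈ O := by
    have h1 : (fun w : ℂ => (w : OnePoint ℂ)) ⁻¹' O ∈ 𝓝 c1 :=
      OnePoint.continuous_coe.continuousAt.preimage_mem_nhds (hOo.mem_nhds hcO)
    obtain ⟨ρ, hρ, h2⟩ := Metric.mem_nhds_iff.1 h1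
    exact ⟨ρ, hρ, fun w hw => h2 hw⟩
  -- the radius
  obtain ⟨R0, hR0⟩ : ∃ R0 : ℝ, ∀ x : OnePoint ℂ, x ∉ φ '' A → ∃ w ∈ ball (0 : ℂ) R0,
      (w : OnePoint ℂ) = x := by
    have h0 : φ '' A ∈ 𝓝 OnePoint.infty := by
      rw [← hφs]
      exact φ.isOpenMap.image_mem_nhds (mem_interior_iff_mem_nhds.1 hsA)
    have h1 : Tendsto (fun z : ℂ => (z : OnePoint ℂ)) (Filter.cocompact ℂ) (𝓝 OnePoint.infty) := by
      rw [← Filter.coclosedCompact_eq_cocompact]
      exact OnePoint.tendsto_coe_infty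
    have h2 : ∀ᶠ z : ℂ in Filter.cocompact ℂ, (z : OnePoint ℂ) ∈ φ '' A := h1.eventually h0
    rw [← Metric.cobounded_eq_cocompact,
      (Metric.hasBasis_cobounded_compl_closedBall (0 : ℂ)).eventually_iff] at h2
    obtain ⟨R, -, hR⟩ := h2
    refine ⟨R + 1, fun x hx => ?_⟩
    induction x using OnePoint.rec with
    | infty => exact absurd (mem_of_mem_nhds h0) hx
    | coe w =>
      refine ⟨w, ?_, rfl⟩
      by_contra hw
      apply hx
      apply hR
      intro h3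
      apply hw
      rw [mem_ball_zero_iff]
      linarith [mem_closedBall_zero_iff.1 h3]
  have hAit : ∀ (n : ℕ) (x : OnePoint ℂ), x ∈ A → (Rf v)^[n] x ∈ A := by
    intro n
    induction n with
    | zero => exact fun x hx => hx
    | succ n ih =>
      intro x hx
      rw [Function.iterate_succ_apply]
      exact ih _ (interior_subset (hA.maps x hx))
  refine H (Lin s v) c1 ρ R0 ⟨hd, hcop1, hdeg1, ?_, ?_, ?_, ?_, hρ, ?_, ?_⟩
  · intro h
    exact hup (up_chart hd hG hGL hLG (fun v h2 h3 => (hall v h2 h3).2.2) hcop hdeg h)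
  · rw [← hφs, att_conj φ hconj]
    exact hA.att _ (interior_subset hsA)
  · rw [hc1, isCrit_conj φ hconj]
    exact hc
  · rw [hc1]
    intro h
    exact hcJ ((Pool.Agent.H76.SU.fs_conj hK hconj c).1 h)
  · rintro n u ⟨w, hw, hwu⟩
    apply hR0
    rintro ⟨y, hy, rfl⟩
    rw [iter_conj φ hconj] at hwu
    have h1 := hρO w hw
    change (w : OnePoint ℂ) = _ at hwu
    rw [hwu, hO] at h1
    exact h1 ⟨_, Or.inl (hAit n y hy), rfl⟩
  · rintro n u ⟨w, hw, hwu⟩ i hi hcr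
    obtain ⟨y, rfl⟩ := φ.surjective u
    rw [iter_conj φ hconj] at hwu hcr
    have h2 : IsCrit (Rf v) ((Rf v)^[i] y) := (isCrit_conj φ hconj _).1 hcr
    have h1 := hρO w hw
    change (w : OnePoint ℂ) = _ at hwu
    rw [hwu, hO] at h1
    apply h1
    refine ⟨_, Or.inr (subset_closure ⟨_, h2, n - i, by omega, ?_⟩), rfl⟩
    rw [← Function.iterate_add_apply]
    congr 2
    omega

end Pool.Agent.H44.CP
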