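import Pool.Agent.H47.NM.UNI
import Pool.Agent.H44.CP.MNT

/-!
# Module PTR: from the closure of the critical orbits to recurrent critical points

`PC f`: the closure of the forward orbits (times `≥ 1`) of the critical points. PROOFS. `fin_tr`: in a finite set with a transitive relation in which every element has a predecessor, every element has a predecessor which is related to itself. `ptr`: the relation `c ∈ Om f c'` or `c = f^n c'`, `n ≥ 1`, is transitive.
`ar_chart`: a map without more attracted critical points nearby has only attracting and repelling cycles in the chart of `gen_ch`. `to_rec`: `ptr` with the Julia set, the orbits of the critical points in the Fatou set stay away from the Julia set (`fj_of_nw_ar`).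
-/

set_option autoImplicit false

open Filter Topology Polynomial Metric Set

namespace Pool.Agent.H44.CP

open Pool.Agent.H44.Fatou Pool.Agent.H32.BT Pool.Agent.H79.Eul Pool.Agent.H79.Par
open Pool.Agent.H35.EX Pool.Agent.H44.RR Pool.Agent.H56.HR Pool.Agent.H44.RC Pool.Agent.H47.RJ
open Pool.Agent.H47.NM Pool.Agent.H47.NN Pool.Agent.H44.ND

variable {d : ℕ} {v : E d}

/-- the closure of the forward orbits of the critical points -/
def PC (f : OnePoint ℂ → OnePoint ℂ) : Set (OnePoint ℂ) :=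
  closure {y | ∃ c, IsCrit f c ∧ ∃ n : ℕ, 1 ≤ n ∧ f^[n] c = y}

theorem fin_tr {X : Type*} {S : Set X} (hS : S.Finite) {R : X → X → Prop}
    (htr : ∀ a b c, R a b → R b c → R a c) (hp : ∀ c ∈ S, ∃ b ∈ S, R b c) {c : X} (hc : c ∈ S) :
    ∃ r ∈ S, R r r ∧ R r c := by
  choose! g hg1 hg2 using hp
  have hmem : ∀ n : ℕ, g^[n] c ∈ S := by
    intro n
    induction n with
    | zero => exact hc
    | succ n ih =>
      rw [Function.iterate_succ_apply']
      exact hg1 _ ih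
  have hrel : ∀ n k : ℕ, R (g^[n + k + 1] c) (g^[n] c) := by
    intro n k
    induction k with
    | zero =>
      show R (g^[n + 1] c) (g^[n] c)
      rw [Function.iterate_succ_apply']
      exact hg2 _ (hmem n)
    | succ k ih =>
      refine htr _ _ _ ?_ ih
      show R (g^[n + k + 1 + 1] c) (g^[n + k + 1] c)
      rw [Function.iterate_succ_apply' g (n + k + 1)]
      exact hg2 _ (hmem _)
  obtain ⟨i, hi, j, hj, hij, he⟩ : ∃ i ∈ Set.Ici 1, ∃ j ∈ Set.Ici 1, i ≠ j ∧ g^[i] c = g^[j] c := by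
    have h1 : (Set.Ici 1 : Set ℕ).Infinite := Set.Ici_infinite 1
    obtain ⟨i, hi, j, hj, hij, he⟩ := h1.exists_ne_map_eq_of_mapsTo (f := fun n => g^[n] c)
      (t := S) (fun n _ => hmem n) hS
    exact ⟨i, hi, j, hj, hij, he⟩
  have key : ∀ i j : ℕ, 1 ≤ i → i < j → g^[i] c = g^[j] c → ∃ r ∈ S, R r r ∧ R r c := by
    intro i j hi hij he
    refine ⟨g^[i] c, hmem i, ?_, ?_⟩
    · have h1 := hrel i (j - i - 1)
      have h2 : i + (j - i - 1) + 1 = j := by omega
      rw [h2, ← he] at h1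
      exact h1
    · have h1 := hrel 0 (i - 1)
      have h2 : 0 + (i - 1) + 1 = i := by omega
      rw [h2] at h1
      exact h1
  rcases lt_or_gt_of_ne hij with h | h
  · exact key i j hi h he
  · exact key j i hj h he.symm

theorem om_shift {f : OnePoint ℂ → OnePoint ℂ} {x y : OnePoint ℂ} (n : ℕ) (h : y ∈ Om f (f^[n] x)) :
    y ∈ Om f x := by
  intro U hU
  have h1 := h U hU
  rw [frequently_atTop] at h1 ⊢
  intro a
  obtain ⟨b, hb, hbU⟩ := h1 a
  refine ⟨b + n, by omega, ?_⟩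
  rw [Function.iterate_add_apply]
  exact hbU

theorem om_inv {f : OnePoint ℂ → OnePoint ℂ} (hf : Continuous f) {x y : OnePoint ℂ} (n : ℕ)
    (h : y ∈ Om f x) : f^[n] y ∈ Om f x := by
  intro U hU
  have h1 := h _ ((hf.iterate n).continuousAt.preimage_mem_nhds hU)
  rw [frequently_atTop] at h1 ⊢
  intro a
  obtain ⟨b, hb, hbU⟩ := h1 a
  refine ⟨n + b, by omega, ?_⟩
  rw [Function.iterate_add_apply]
  exact hbU

theorem om_trans {f : OnePoint ℂ → OnePoint ℂ} (hf : Continuous f) {x y z : OnePoint ℂ}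
    (h : y ∈ Om f x) (h' : z ∈ Om f y) : z ∈ Om f x := by
  intro U hU
  obtain ⟨V, hVU, hVo, hzV⟩ := _root_.mem_nhds_iff.1 hU
  obtain ⟨n, hn⟩ := (h' V (hVo.mem_nhds hzV)).exists
  exact (om_inv hf n h V (hVo.mem_nhds hn)).mono fun k hk => hVU hk

/-- a point in the closure of a forward orbit -/
theorem cl_orb {f : OnePoint ℂ → OnePoint ℂ} {x y : OnePoint ℂ}
    (h : y ∈ closure {z | ∃ n : ℕ, 1 ≤ n ∧ f^[n] x = z}) : y ∈ Om f x ∨ ∃ n : ℕ, 1 ≤ n ∧ f^[n] x = y := by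
  by_contra hcon
  push Not at hcon
  obtain ⟨h1, h2⟩ := hcon
  unfold Om at h1
  rw [Set.mem_setOf_eq] at h1
  push Not at h1
  obtain ⟨U, hU, hUf⟩ := h1
  rw [eventually_atTop] at hUf
  obtain ⟨N, hN⟩ := hUf
  have hfin : (⋃ n ∈ Finset.range N, {z : OnePoint ℂ | 1 ≤ n ∧ f^[n] x = z}).Finite := by
    refine Set.Finite.biUnion (Finset.finite_toSet _) fun n _ => ?_
    exact (Set.finite_singleton (f^[n] x)).subset fun z hz => hz.2.symm
  have hV : U ∩ (⋃ n ∈ Finset.range N, {z : OnePoint ℂ | 1 ≤ n ∧ f^[n] x = z})ᶜ ∈ 𝓝 y := by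
    refine inter_mem hU (hfin.isClosed.isOpen_compl.mem_nhds ?_)
    intro hy
    rw [mem_iUnion₂] at hy
    obtain ⟨n, -, hn1, hn2⟩ := hy
    exact h2 n hn1 hn2
  obtain ⟨z, ⟨hzU, hzn⟩, n, hn1, hnz⟩ := mem_closure_iff_nhds.1 h _ hV
  rcases Nat.lt_or_ge n N with h3 | h3
  · apply hzn
    rw [mem_iUnion₂]
    exact ⟨n, Finset.mem_range.2 h3, hn1, hnz⟩
  · apply hN n h3
    rw [hnz]
    exact hzU

theorem ptr {f : OnePoint ℂ → OnePoint ℂ} (hf : Continuous f) {J : Set (OnePoint ℂ)}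
    (hfin : {c | IsCrit f c}.Finite) (hJ : ∀ n x, f^[n] x ∈ J ↔ x ∈ J)
    (hom : ∀ c, IsCrit f c → c ∉ J → ∀ y ∈ Om f c, y ∉ J)
    (hnp : ∀ c, IsCrit f c → c ∈ J → ∀ n, 1 ≤ n → f^[n] c ≠ c)
    (hP : ∀ c, IsCrit f c → c ∈ J → c ∈ PC f) {c : OnePoint ℂ} (hc : IsCrit f c) (hcJ : c ∈ J) :
    ∃ r, IsCrit f r ∧ r ∈ J ∧ r ∈ Om f r ∧ c ∈ Om f r := by
  obtain ⟨S, hS⟩ : ∃ S, S = {c | IsCrit f c} ∩ J := ⟨_, rfl⟩
  have hSf : S.Finite := by
    rw [hS]
    exact hfin.subset inter_subset_left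
  obtain ⟨R, hR⟩ : ∃ R : OnePoint ℂ → OnePoint ℂ → Prop,
      R = fun a b => b ∈ Om f a ∨ ∃ n : ℕ, 1 ≤ n ∧ f^[n] a = b := ⟨_, rfl⟩
  have htr : ∀ a b c, R a b → R b c → R a c := by
    intro a b c h1 h2
    rw [hR] at h1 h2 ⊢
    rcases h1 with h1 | ⟨n, hn, h1⟩
    · rcases h2 with h2 | ⟨m, hm, h2⟩
      · exact Or.inl (om_trans hf h1 h2)
      · left
        rw [← h2]
        exact om_inv hf m h1
    · rcases h2 with h2 | ⟨m, hm, h2⟩
      · left
        rw [← h1] at h2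
        exact om_shift n h2
      · right
        refine ⟨m + n, by omega, ?_⟩
        rw [Function.iterate_add_apply, h1, h2]
  have hpred : ∀ c ∈ S, ∃ b ∈ S, R b c := by
    intro c hc
    rw [hS] at hc
    obtain ⟨hc1, hc2⟩ := hc
    have h1 := hP c hc1 hc2
    unfold PC at h1
    have h2 : {y | ∃ c, IsCrit f c ∧ ∃ n : ℕ, 1 ≤ n ∧ f^[n] c = y} =
        ⋃ b ∈ {c | IsCrit f c}, {z | ∃ n : ℕ, 1 ≤ n ∧ f^[n] b = z} := by
      ext y
      constructor
      · rintro ⟨b, hb, hn⟩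
        rw [mem_iUnion₂]
        exact ⟨b, hb, hn⟩
      · intro h
        rw [mem_iUnion₂] at h
        obtain ⟨b, hb, hn⟩ := h
        exact ⟨b, hb, hn⟩
    rw [h2, hfin.closure_biUnion, mem_iUnion₂] at h1
    obtain ⟨b, hb, h3⟩ := h1
    have h4 := cl_orb h3
    refine ⟨b, ?_, ?_⟩
    · rw [hS]
      refine ⟨hb, ?_⟩
      by_contra hbJ
      rcases h4 with h4 | ⟨n, -, h4⟩
      · exact hom b hb hbJ c h4 hc2
      · rw [← h4] at hc2
        exact hbJ ((hJ n b).1 hc2)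
    · rw [hR]
      exact h4
  obtain ⟨r, hrS, hrr, hrc⟩ := fin_tr hSf htr hpred (c := c) (by rw [hS]; exact ⟨hc, hcJ⟩)
  rw [hS] at hrS
  rw [hR] at hrr hrc
  have hro : r ∈ Om f r := by
    rcases hrr with h | ⟨n, hn, h⟩
    · exact h
    · exact absurd h (hnp r hrS.1 hrS.2 n hn)
  refine ⟨r, hrS.1, hrS.2, hro, ?_⟩
  rcases hrc with h | ⟨n, -, h⟩
  · exact h
  · rw [← h]
    exact om_inv hf n hro

/-- all cycles are attracting or repelling if the number of attracted critical points does not increase nearby -/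
theorem ar_gen (hd : 2 ≤ d) {w : E d} (h : Gen d (pol w.1) (pol w.2))
    (hi : ∀ p : ℕ, 0 < p → (Rf w)^[p] OnePoint.infty ≠ OnePoint.infty) (hup : ¬ Up w) : AR w := by
  have hdeg : max (pol w.1).natDegree (pol w.2).natDegree = d := by rw [h.ha, h.hb, max_self]
  by_cases hN : NNeu w
  · exact ar_of_nneu (by omega) h.cop hdeg hN
  · exfalso
    have h1 : ∃ p : ℕ, 0 < p ∧ ∃ x m, Cyc (pol w.1) (pol w.2) p x m ∧ ‖m‖ = 1 := by
      by_contra hno
      exact hN ⟨hi, fun p hp x m hc hm => hno ⟨p, hp, x, m, hc, hm⟩⟩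
    obtain ⟨p, hp, x, m, hc, hm⟩ := h1
    exact hup (neu_up hd h.cop hdeg hp hc hm)

theorem to_rec (hd : 2 ≤ d) (hcop : IsCoprime (pol v.1) (pol v.2))
    (hdeg : max (pol v.1).natDegree (pol v.2).natDegree = d) (hAR : AR v)
    (hP : ∀ c, IsCrit (Rf v) c → c ∈ JS (Rf v) → c ∈ PC (Rf v)) {c : OnePoint ℂ}
    (hc : IsCrit (Rf v) c) (hcJ : c ∈ JS (Rf v)) :
    ∃ r, IsCrit (Rf v) r ∧ r ∈ JS (Rf v) ∧ r ∈ Om (Rf v) r ∧ c ∈ Om (Rf v) r := by
  have hd1 : 1 ≤ d := by omega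
  have hF : FJ (Rf v) := fj_of_nw_ar hd1 hcop hdeg hAR (nw_all hd hcop hdeg)
  refine ptr (rat_continuous hcop) (crit_finite hcop (by rw [hdeg]; omega)) ?_ ?_ ?_ hP hc hcJ
  · intro n x
    exact not_congr (fs_iff hd1 hcop hdeg n x)
  · intro c hc hcJ y hy hyJ
    have hcF : c ∈ FS (Rf v) := not_not.1 hcJ
    obtain ⟨η, hη, h1⟩ := hF {c} (singleton_subset_iff.2 hcF) isCompact_singleton
    have h2 : {z | chord y z < η} ∈ 𝓝 y := ch_ball y hη
    obtain ⟨n, hn⟩ := (hy _ h2).exists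
    have h3 := h1 c (mem_singleton c) n y hyJ
    rw [chord_comm] at h3
    exact (lt_irrefl _ (h3.trans_lt hn)).elim
  · intro c hc hcJ n hn hper
    have hper' : (Rf v)^[n] c = c := hper
    rcases hAR n hn c hper with ⟨-, h1⟩ | ⟨ρ, κ, g, hR⟩
    · exact hcJ h1
    · apply hc
      have hf : Continuous (Rf v) := rat_continuous hcop
      have h2 : (Rf v)^[n] ⁻¹' {x | chord c x < ρ} ∈ 𝓝 c := by
        apply (hf.iterate n).continuousAt.preimage_mem_nhds
        rw [hper']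
        exact ch_ball c hR.hρ
      refine ⟨{x | chord c x < ρ} ∩ (Rf v)^[n] ⁻¹' {x | chord c x < ρ},
        inter_mem (ch_ball c hR.hρ) h2, ?_⟩
      rintro x ⟨hx1, hx2⟩ y ⟨hy1, hy2⟩ hxy
      obtain ⟨m, rfl⟩ : ∃ m, n = m + 1 := ⟨n - 1, by omega⟩
      have hxy' : Rf v x = Rf v y := hxy
      have h3 : (Rf v)^[m + 1] x = (Rf v)^[m + 1] y := by
        rw [Function.iterate_succ_apply, Function.iterate_succ_apply, hxy']
      rw [← hR.left x hx1 hx2, h3, hR.left y hy1 hy2]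

end Pool.Agent.H44.CP
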