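import Mathlib

/-!
# Module MCV: a continuous selection over a disc from a compact set which is locally a graph

PROOF. The projection of the compact set `K` to the first coordinate is a covering over the disc (`IsCoveringMapOn.of_isLocalHomeomorphOn`), and the disc is simply connected.
-/

set_option autoImplicit false

open Filter Topology Metric Set

namespace Pool.Agent.H44.CP

theorem sel {K : Set (ℂ × ℂ)} (hK : IsCompact K) {r : ℝ} (hr : 0 < r)
    (hloc : ∀ q ∈ K, q.1 ∈ ball (0 : ℂ) r → ∃ (δ : ℝ) (ζ : ℂ → ℂ), 0 < δ ∧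
      ContinuousOn ζ (ball q.1 δ) ∧ ζ q.1 = q.2 ∧ (∀ t ∈ ball q.1 δ, (t, ζ t) ∈ K) ∧
      ∀ t ∈ ball q.1 δ, ∀ z ∈ ball q.2 δ, (t, z) ∈ K → z = ζ t)
    {z0 : ℂ} (hz : ((0 : ℂ), z0) ∈ K) :
    ∃ F : ℂ → ℂ, ContinuousOn F (ball 0 r) ∧ F 0 = z0 ∧ ∀ t ∈ ball (0 : ℂ) r, (t, F t) ∈ K := by
  classical
  have hcK : CompactSpace K := isCompact_iff_compactSpace.1 hK
  obtain ⟨p, hp⟩ : ∃ p : K → ℂ, p = fun e => e.1.1 := ⟨_, rfl⟩
  have hpc : Continuous p := by
    rw [hp]
    exact continuous_fst.comp continuous_subtype_val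
  have hLH : IsLocalHomeomorphOn p (p ⁻¹' ball (0 : ℂ) r) := by
    rw [isLocalHomeomorphOn_iff_isOpenEmbedding_restrict]
    rintro ⟨q, hq⟩ hqr
    rw [hp] at hqr
    obtain ⟨δ, ζ, hδ, hζ, hζq, h1, h2⟩ := hloc q hq hqr
    have hζc : ContinuousAt ζ q.1 := hζ.continuousAt (ball_mem_nhds _ hδ)
    have h3 : ∀ᶠ t in 𝓝 q.1, ζ t ∈ ball q.2 δ := by
      apply hζc.eventually_mem
      rw [hζq]
      exact ball_mem_nhds _ hδ
    obtain ⟨δ1, hδ1, h4⟩ := Metric.eventually_nhds_iff_ball.1 h3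
    obtain ⟨U, hU⟩ : ∃ U : Set K, U = {e | e.1.1 ∈ ball q.1 (min δ δ1) ∧ e.1.2 ∈ ball q.2 δ} :=
      ⟨_, rfl⟩
    have hUo : IsOpen U := by
      rw [hU]
      exact (isOpen_ball.preimage (continuous_fst.comp continuous_subtype_val)).inter
        (isOpen_ball.preimage (continuous_snd.comp continuous_subtype_val))
    have hgr : ∀ e ∈ U, e.1.2 = ζ e.1.1 := by
      intro e he
      rw [hU] at he
      exact h2 _ (ball_subset_ball (min_le_left _ _) he.1) _ he.2 e.2
    refine ⟨U, hUo.mem_nhds ?_, ?_⟩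
    · rw [hU]
      exact ⟨mem_ball_self (lt_min hδ hδ1), mem_ball_self hδ⟩
    · apply IsOpenEmbedding.of_continuous_injective_isOpenMap
      · exact hpc.comp continuous_subtype_val
      · rintro ⟨a, ha⟩ ⟨b, hb⟩ hab
        have hab' : a.1.1 = b.1.1 := by
          have := hab
          rw [hp] at this
          exact this
        apply Subtype.ext
        apply Subtype.ext
        apply Prod.ext hab'
        rw [hgr a ha, hgr b hb, hab']
      · intro V hV
        rw [isOpen_iff_mem_nhds]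
        rintro _ ⟨⟨e, heU⟩, heV, rfl⟩
        have h5 : Subtype.val '' V ∈ 𝓝 e :=
          (hUo.isOpenEmbedding_subtypeVal.isOpenMap V hV).mem_nhds ⟨⟨e, heU⟩, heV, rfl⟩
        rw [nhds_subtype_eq_comap, Filter.mem_comap] at h5
        obtain ⟨W, hW, hWV⟩ := h5
        have he2 := hgr e heU
        have heU' := heU
        rw [hU] at heU'
        have heb : e.1.1 ∈ ball q.1 δ := ball_subset_ball (min_le_left _ _) heU'.1
        have h6 : ContinuousAt (fun t => ((t, ζ t) : ℂ × ℂ)) e.1.1 :=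
          continuousAt_id.prodMk (hζ.continuousAt (isOpen_ball.mem_nhds heb))
        have h7 : ∀ᶠ t in 𝓝 e.1.1, ((t, ζ t) : ℂ × ℂ) ∈ W := by
          apply h6.eventually_mem
          show W ∈ 𝓝 (e.1.1, ζ e.1.1)
          rw [← he2]
          exact hW
        show _ ∈ 𝓝 (p e)
        have hpe : p e = e.1.1 := by rw [hp]
        rw [hpe]
        filter_upwards [h7, isOpen_ball.mem_nhds heb] with t ht1 ht2
        have h8 : (⟨(t, ζ t), h1 t ht2⟩ : K) ∈ Subtype.val '' V := hWV ht1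
        obtain ⟨y, hyV, hy⟩ := h8
        refine ⟨y, hyV, ?_⟩
        show p y = t
        rw [hy, hp]
  have hcov := IsCoveringMapOn.of_isLocalHomeomorphOn hpc hLH
  have hcx : Convex ℝ (ball (0 : ℂ) r) := convex_ball _ _
  have h1 : ContractibleSpace (ball (0 : ℂ) r) := hcx.contractibleSpace ⟨0, mem_ball_self hr⟩
  have h2 : LocallyPathConnectedSpace (ball (0 : ℂ) r) := isOpen_ball.locallyPathConnectedSpace
  let ψ : C(ball (0 : ℂ) r, ℂ) := ⟨fun t => (t : ℂ), continuous_subtype_val⟩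
  obtain ⟨F, ⟨hF1, hF2⟩, -⟩ := hcov.existsUnique_continuousMap_lifts ψ
    (a₀ := ⟨0, mem_ball_self hr⟩) (e₀ := ⟨((0 : ℂ), z0), hz⟩) (by rw [hp]; rfl) (fun a => a.2)
  refine ⟨fun t => if h : t ∈ ball (0 : ℂ) r then (F ⟨t, h⟩).1.2 else 0, ?_, ?_, ?_⟩
  · rw [continuousOn_iff_continuous_domRestrict]
    have : (ball (0 : ℂ) r).domRestrict (fun t => if h : t ∈ ball (0 : ℂ) r then (F ⟨t, h⟩).1.2 else 0) =
        fun t => (F t).1.2 := by
      funext t
      simp [Set.domRestrict]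
    rw [this]
    exact continuous_snd.comp (continuous_subtype_val.comp F.continuous)
  · simp only [mem_ball_self hr, dif_pos]
    rw [hF1]
  · intro t ht
    simp only [ht, dif_pos]
    have h3 : p (F ⟨t, ht⟩) = t := congrFun hF2 ⟨t, ht⟩
    rw [hp] at h3
    have h4 : (F ⟨t, ht⟩).1 = (t, (F ⟨t, ht⟩).1.2) := Prod.ext h3 rfl
    rw [← h4]
    exact (F ⟨t, ht⟩).2

end Pool.Agent.H44.CP
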