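import Pool.Agent.H44.NP.WIT
import Pool.Agent.H44.NP.IFT
import Pool.Agent.H44.CP.MCV

/-!
# Module MKC: the cycles with multiplier of modulus at least one along a line of maps

PROOFS. `ks_cpt`: sequences; by induction on `i` the limit point is in `Gp i`: if the denominator `Q` at `y = lim wi i` vanished then `‖P y‖ ≤ R ‖Q y‖` (from `P = wi (i + 1) Q` and `‖wi (i + 1)‖ ≤ R`) gives a common zero of a coprime pair. `ks_loc`: implicit function theorem (`ift`). `ks_sel`: `sel` (MCV).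
-/

set_option autoImplicit false

open Filter Topology Polynomial Metric Set

namespace Pool.Agent.H44.CP

open Pool.Agent.H44.Fatou Pool.Agent.H79.Eul Pool.Agent.H79.Par Pool.Agent.H47.NN Pool.Agent.H44.NP

variable {d : ℕ}

/-- the cycles of period `p` with multiplier of modulus at least one along the line `v0 + t w` -/
def KS (v0 w : E d) (p : ℕ) (r R : ℝ) : Set (ℂ × ℂ) :=
  {q | ‖q.1‖ ≤ r ∧ (v0 + q.1 • w, q.2) ∈ (Gp p : Set (E d × ℂ)) ∧ wi p (v0 + q.1 • w, q.2) = q.2 ∧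
    1 ≤ ‖mu p (v0 + q.1 • w, q.2)‖ ∧ ∀ i, i ≤ p → ‖wi i (v0 + q.1 • w, q.2)‖ ≤ R}

private theorem mkc_ev (c : Fin (d + 1) → ℂ) (z : ℂ) :
    (pol c).eval z = ∑ i : Fin (d + 1), c i * z ^ (i : ℕ) := by
  unfold pol
  rw [eval_finset_sum]
  refine Finset.sum_congr rfl fun i _ => ?_
  rw [eval_mul, eval_C, eval_pow, eval_X]

private theorem mkc_lim {c : ℕ → Fin (d + 1) → ℂ} {c0 : Fin (d + 1) → ℂ} {y : ℕ → ℂ} {y0 : ℂ}
    (hc : Tendsto c atTop (𝓝 c0)) (hy : Tendsto y atTop (𝓝 y0)) :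
    Tendsto (fun k => (pol (c k)).eval (y k)) atTop (𝓝 ((pol c0).eval y0)) := by
  simp only [mkc_ev]
  exact tendsto_finset_sum _ fun i _ => ((tendsto_pi_nhds.1 hc i).mul (hy.pow _))

theorem ks_cpt {v0 w : E d} {p : ℕ} {r R : ℝ}
    (hcop : ∀ t : ℂ, ‖t‖ ≤ r → IsCoprime (pol (v0 + t • w).1) (pol (v0 + t • w).2)) :
    IsCompact (KS v0 w p r R) := by
  have hb : KS v0 w p r R ⊆ closedBall (0 : ℂ) r ×ˢ closedBall (0 : ℂ) R := by
    rintro ⟨t, z⟩ ⟨h1, -, -, -, h5⟩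
    refine ⟨mem_closedBall_zero_iff.2 h1, mem_closedBall_zero_iff.2 ?_⟩
    exact h5 0 (Nat.zero_le _)
  refine IsCompact.of_isClosed_subset ((isCompact_closedBall _ _).prod (isCompact_closedBall _ _)) ?_ hb
  refine isClosed_of_closure_subset fun q hq => ?_
  obtain ⟨u, hu, hlim⟩ := mem_closure_iff_seq_limit.1 hq
  obtain ⟨t, z⟩ := q
  have ht : Tendsto (fun k => (u k).1) atTop (𝓝 t) := (continuous_fst.tendsto _).comp hlim
  have hz : Tendsto (fun k => (u k).2) atTop (𝓝 z) := (continuous_snd.tendsto _).comp hlim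
  have htr : ‖t‖ ≤ r := le_of_tendsto' ht.norm fun k => (hu k).1
  have hv : Tendsto (fun k => v0 + (u k).1 • w) atTop (𝓝 (v0 + t • w)) :=
    tendsto_const_nhds.add (ht.smul_const w)
  have hq' : Tendsto (fun k => ((v0 + (u k).1 • w, (u k).2) : E d × ℂ)) atTop (𝓝 (v0 + t • w, z)) :=
    hv.prodMk_nhds hz
  have key : ∀ i, i ≤ p → (v0 + t • w, z) ∈ (Gp i : Set (E d × ℂ)) := by
    intro i
    induction i with
    | zero => exact fun _ j hj => absurd hj (Nat.not_lt_zero j)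
    | succ i ih =>
      intro hi j hj
      have hG := ih (by omega)
      rcases Nat.lt_succ_iff_lt_or_eq.1 hj with h1 | h1
      · exact hG j h1
      · subst h1
        have hy : Tendsto (fun k => wi j (v0 + (u k).1 • w, (u k).2)) atTop
            (𝓝 (wi j (v0 + t • w, z))) := (wi_an j hG).continuousAt.tendsto.comp hq'
        have hP := mkc_lim ((continuous_fst.tendsto _).comp hv) hy
        have hQ := mkc_lim ((continuous_snd.tendsto _).comp hv) hy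
        have hle : ‖(pol (v0 + t • w).1).eval (wi j (v0 + t • w, z))‖ ≤
            R * ‖(pol (v0 + t • w).2).eval (wi j (v0 + t • w, z))‖ := by
          refine le_of_tendsto_of_tendsto' hP.norm (hQ.norm.const_mul R) fun k => ?_
          have hk := hu k
          have h2 := hk.2.1 j (by omega)
          have h3 := hk.2.2.2.2 (j + 1) hi
          have h4 : wi (j + 1) (v0 + (u k).1 • w, (u k).2) =
              (pol (v0 + (u k).1 • w).1).eval (wi j (v0 + (u k).1 • w, (u k).2)) /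
                (pol (v0 + (u k).1 • w).2).eval (wi j (v0 + (u k).1 • w, (u k).2)) := rfl
          rw [h4, norm_div, div_le_iff₀ (norm_pos_iff.2 h2)] at h3
          exact h3
        intro h0
        have h0' : (pol (v0 + t • w).2).eval (wi j (v0 + t • w, z)) = 0 := h0
        rw [h0', norm_zero, mul_zero] at hle
        have h5 := norm_eq_zero.1 (le_antisymm hle (norm_nonneg _))
        obtain ⟨A, B, hAB⟩ := hcop t htr
        have h6 := congrArg (fun P => P.eval (wi j (v0 + t • w, z))) hAB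
        simp only [eval_add, eval_mul, eval_one] at h6
        rw [h5, h0'] at h6
        simp at h6
  have hGp := key p le_rfl
  have hw : ∀ i, i ≤ p → Tendsto (fun k => wi i (v0 + (u k).1 • w, (u k).2)) atTop
      (𝓝 (wi i (v0 + t • w, z))) := fun i hi =>
    (wi_an i (key i hi)).continuousAt.tendsto.comp hq'
  refine ⟨htr, hGp, ?_, ?_, ?_⟩
  · exact tendsto_nhds_unique (hw p le_rfl) (hz.congr fun k => ((hu k).2.2.1).symm)
  · exact ge_of_tendsto' ((mu_an p hGp).continuousAt.tendsto.comp hq').norm fun k => (hu k).2.2.2.1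
  · exact fun i hi => le_of_tendsto' (hw i hi).norm fun k => (hu k).2.2.2.2 i hi

theorem ks_loc {v0 w : E d} {p : ℕ} {r R : ℝ}
    (hne : ∀ t : ℂ, ‖t‖ ≤ r → ∀ x m, Cyc (pol (v0 + t • w).1) (pol (v0 + t • w).2) p x m → ‖m‖ ≠ 1)
    (hR : ∀ t : ℂ, ‖t‖ ≤ r → ∀ x m, Cyc (pol (v0 + t • w).1) (pol (v0 + t • w).2) p x m →
      1 ≤ ‖m‖ → ∀ i, i ≤ p → ‖x i‖ ≤ R)
    {q : ℂ × ℂ} (hq : q ∈ KS v0 w p r R) (hqr : q.1 ∈ ball (0 : ℂ) r) :
    ∃ (δ : ℝ) (ζ : ℂ → ℂ), 0 < δ ∧ DifferentiableOn ℂ ζ (ball q.1 δ) ∧ ζ q.1 = q.2 ∧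
      (∀ t ∈ ball q.1 δ, (t, ζ t) ∈ KS v0 w p r R) ∧
      ∀ t ∈ ball q.1 δ, ∀ z ∈ ball q.2 δ, (t, z) ∈ KS v0 w p r R → z = ζ t := by
  obtain ⟨t1, z1⟩ := q
  obtain ⟨h1, h2, h3, h4, h5⟩ := hq
  have hqr' : ‖t1‖ < r := mem_ball_zero_iff.1 hqr
  have hc1 := wi_cyc h2 h3
  have hm1 := hne t1 h1 _ _ hc1
  have hm : 1 < ‖mu p (v0 + t1 • w, z1)‖ := lt_of_le_of_ne h4 (Ne.symm hm1)
  have hh : AnalyticAt ℂ (fun q : E d × ℂ => wi p q - q.2) (v0 + t1 • w, z1) :=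
    (wi_an p h2).sub analyticAt_snd
  have h0 : (fun q : E d × ℂ => wi p q - q.2) (v0 + t1 • w, z1) = 0 := sub_eq_zero.2 h3
  have hd1 : fderiv ℂ (fun q : E d × ℂ => wi p q - q.2) (v0 + t1 • w, z1) (0, 1) ≠ 0 := by
    rw [fderiv_fun_sub (wi_an p h2).differentiableAt differentiableAt_snd]
    rw [ContinuousLinearMap.sub_apply, (wi_dz p h2).1, fderiv_snd]
    show mu p (v0 + t1 • w, z1) - 1 ≠ 0
    intro h
    rw [sub_eq_zero.1 h, norm_one] at hm
    exact lt_irrefl _ hm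
  have hN : (Gp p ∩ {q : E d × ℂ | 1 < ‖mu p q‖}) ∈ 𝓝 (v0 + t1 • w, z1) :=
    inter_mem ((gp_open p).mem_nhds h2)
      (((mu_an p h2).continuousAt.norm).eventually (lt_mem_nhds hm))
  obtain ⟨s, ζ, hs, hζa, hζ1, hζ2⟩ := ift hh h0 hd1 hN
  have hw0 : 0 < ‖w‖ + 1 := by positivity
  obtain ⟨δ, hδd⟩ : ∃ δ, δ = min (s / (‖w‖ + 1)) (min (r - ‖t1‖) s) := ⟨_, rfl⟩
  have hδ : 0 < δ := by
    rw [hδd]
    exact lt_min (by positivity) (lt_min (by linarith) hs)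
  have hδ1 : δ ≤ s / (‖w‖ + 1) := by rw [hδd]; exact min_le_left _ _
  have hδ2 : δ ≤ r - ‖t1‖ := by
    rw [hδd]
    exact (min_le_right _ _).trans (min_le_left _ _)
  have hδ3 : δ ≤ s := by
    rw [hδd]
    exact (min_le_right _ _).trans (min_le_right _ _)
  have hvb : ∀ t ∈ ball t1 δ, v0 + t • w ∈ ball (v0 + t1 • w) s := by
    intro t ht
    rw [mem_ball_iff_norm] at ht ⊢
    have e1 : v0 + t • w - (v0 + t1 • w) = (t - t1) • w := by rw [sub_smul]; abel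
    rw [e1, norm_smul]
    have e2 : ‖t - t1‖ < s / (‖w‖ + 1) := ht.trans_le hδ1
    rw [lt_div_iff₀ hw0] at e2
    have e3 := norm_nonneg (t - t1)
    nlinarith
  have htr : ∀ t ∈ ball t1 δ, ‖t‖ ≤ r := by
    intro t ht
    rw [mem_ball_iff_norm] at ht
    have e1 := norm_add_le (t - t1) t1
    rw [sub_add_cancel] at e1
    linarith
  refine ⟨δ, fun t => ζ (v0 + t • w), hδ, ?_, ?_, ?_, ?_⟩
  · intro t ht
    have e1 : AnalyticAt ℂ ζ (v0 + t • w) := hζa _ (hvb t ht)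
    have e2 : DifferentiableAt ℂ (fun t : ℂ => v0 + t • w) t :=
      (differentiableAt_const _).add (differentiableAt_id.smul_const w)
    exact (DifferentiableAt.comp t e1.differentiableAt e2).differentiableWithinAt
  · exact (hζ2 _ (mem_ball_self hs) z1 (mem_ball_self hs) h0).symm
  · intro t ht
    obtain ⟨⟨e1, e2⟩, e3⟩ := hζ1 _ (hvb t ht)
    have e4 : wi p (v0 + t • w, ζ (v0 + t • w)) = ζ (v0 + t • w) := sub_eq_zero.1 e3
    have e5 := wi_cyc e1 e4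
    have e6 : 1 ≤ ‖mu p (v0 + t • w, ζ (v0 + t • w))‖ := le_of_lt e2
    exact ⟨htr t ht, e1, e4, e6, hR t (htr t ht) _ _ e5 e6⟩
  · intro t ht z hz hK
    exact hζ2 _ (hvb t ht) z (ball_subset_ball hδ3 hz) (sub_eq_zero.2 hK.2.2.1)

theorem ks_sel {v0 w : E d} {p : ℕ} {r R : ℝ} (hr : 0 < r)
    (hcop : ∀ t : ℂ, ‖t‖ ≤ r → IsCoprime (pol (v0 + t • w).1) (pol (v0 + t • w).2))
    (hne : ∀ t : ℂ, ‖t‖ ≤ r → ∀ x m, Cyc (pol (v0 + t • w).1) (pol (v0 + t • w).2) p x m → ‖m‖ ≠ 1)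
    (hR : ∀ t : ℂ, ‖t‖ ≤ r → ∀ x m, Cyc (pol (v0 + t • w).1) (pol (v0 + t • w).2) p x m →
      1 ≤ ‖m‖ → ∀ i, i ≤ p → ‖x i‖ ≤ R)
    {z0 : ℂ} (hz : ((0 : ℂ), z0) ∈ KS v0 w p r R) :
    ∃ F : ℂ → ℂ, DifferentiableOn ℂ F (ball 0 r) ∧ F 0 = z0 ∧
      ∀ t ∈ ball (0 : ℂ) r, (t, F t) ∈ KS v0 w p r R := by
  obtain ⟨F, hF, hF0, hFK⟩ := sel (ks_cpt (p := p) (R := R) hcop) hr
    (fun q hq hqr => by
      obtain ⟨δ, ζ, h1, h2, h3, h4, h5⟩ := ks_loc hne hR hq hqr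
      exact ⟨δ, ζ, h1, h2.continuousOn, h3, h4, h5⟩) hz
  refine ⟨F, ?_, hF0, hFK⟩
  intro t ht
  obtain ⟨δ, ζ, h1, h2, h3, h4, h5⟩ := ks_loc hne hR (hFK t ht) ht
  have hFc : ContinuousAt F t := hF.continuousAt (isOpen_ball.mem_nhds ht)
  have e1 : ∀ᶠ s in 𝓝 t, F s ∈ ball (F t) δ := hFc.eventually_mem (ball_mem_nhds _ h1)
  have e2 : ∀ᶠ s in 𝓝 t, F s = ζ s := by
    filter_upwards [e1, ball_mem_nhds t h1, isOpen_ball.mem_nhds ht] with s hs1 hs2 hs3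
    exact h5 s hs2 (F s) hs1 (hFK s hs3)
  have e3 : DifferentiableAt ℂ ζ t := h2.differentiableAt (ball_mem_nhds t h1)
  exact (e3.congr_of_eventuallyEq e2).differentiableWithinAt

end Pool.Agent.H44.CP
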